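import Pool.Agent.Y727.FG.Stm

set_option autoImplicit false

namespace Pool.Agent.Y473.FG

open Finset Pool.Agent.Y727.FG

section

variable {n : ℕ} {E : Matrix (Fin n) (Fin n) ℝ}

lemma mem_Yg (σ : Equiv.Perm (Fin n)) : σ ∈ Yg E ↔ ∀ i, E i (σ i) ≠ 0 := by
  classical
  unfold Yg
  simp

/-- The conclusion of `S_idem` for one matrix. -/
structure Blk (E : Matrix (Fin n) (Fin n) ℝ) : Prop where
  symm : ∀ i j, E i j = E j i
  pos : ∀ i, 0 < E i i
  row : ∀ i j, E i j ≠ 0 → ∀ k, E i k = E j k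
  sum : ∀ i, ∑ j, E i j = 1
  sq : ∀ i, ∑ a, E i a * E i a = E i i

variable (hE : Blk E)
include hE

lemma Blk.refl (i : Fin n) : E i i ≠ 0 := (hE.pos i).ne'

lemma Blk.sym {i j : Fin n} (h : E i j ≠ 0) : E j i ≠ 0 := by rwa [hE.symm j i]

lemma Blk.trans {i j k : Fin n} (h : E i j ≠ 0) (h' : E j k ≠ 0) : E i k ≠ 0 := by
  rwa [hE.row i j h k]

lemma mul_mem {σ π : Equiv.Perm (Fin n)} (hσ : σ ∈ Yg E) (hπ : π ∈ Yg E) : σ * π ∈ Yg E := by
  rw [mem_Yg] at *
  intro i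
  exact hE.trans (hπ i) (hσ (π i))

lemma inv_mem {σ : Equiv.Perm (Fin n)} (hσ : σ ∈ Yg E) : σ⁻¹ ∈ Yg E := by
  rw [mem_Yg] at *
  intro i
  have h := hσ (σ⁻¹ i)
  have h2 : σ (σ⁻¹ i) = i := by simp
  rw [h2] at h
  exact hE.sym h

lemma swap_mem {a b : Fin n} (h : E a b ≠ 0) : Equiv.swap a b ∈ Yg E := by
  rw [mem_Yg]
  intro i
  by_cases h1 : i = a
  · subst h1
    rwa [Equiv.swap_apply_left]
  by_cases h2 : i = b
  · subst h2
    rw [Equiv.swap_apply_right]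
    exact hE.sym h
  · rw [Equiv.swap_apply_of_ne_of_ne h1 h2]
    exact hE.refl i

lemma sum_mul_right {π : Equiv.Perm (Fin n)} (hπ : π ∈ Yg E) (G : Equiv.Perm (Fin n) → ℝ) :
    ∑ σ ∈ Yg E, G (σ * π) = ∑ σ ∈ Yg E, G σ := by
  refine Finset.sum_equiv (Equiv.mulRight π) ?_ ?_
  · intro σ
    rw [Equiv.coe_mulRight]
    refine ⟨fun h => mul_mem hE h hπ, fun h => ?_⟩
    have := mul_mem hE h (inv_mem hE hπ)
    rwa [mul_inv_cancel_right] at this
  · intro σ _
    rfl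

lemma row_perm {σ : Equiv.Perm (Fin n)} (hσ : σ ∈ Yg E) (i a : Fin n) : E i (σ a) = E i a := by
  rw [hE.symm i (σ a), hE.symm i a]
  exact (hE.row a (σ a) ((mem_Yg σ).1 hσ a) i).symm

lemma reindex1 {σ : Equiv.Perm (Fin n)} (hσ : σ ∈ Yg E) (i : Fin n) (f : Fin n → ℝ) :
    ∑ a, E i a * f (σ a) = ∑ a, E i a * f a := by
  rw [← Equiv.sum_comp σ (fun a => E i a * f a)]
  exact sum_congr rfl (fun a _ => by rw [row_perm hE hσ])

lemma reindex2 {σ : Equiv.Perm (Fin n)} (hσ : σ ∈ Yg E) (i i' : Fin n) (F : Fin n → Fin n → ℝ) :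
    ∑ a, ∑ b, E i a * E i' b * F (σ a) (σ b) = ∑ a, ∑ b, E i a * E i' b * F a b := by
  have h1 : ∀ a, ∑ b, E i a * E i' b * F (σ a) (σ b) = E i a * ∑ b, E i' b * F (σ a) b := by
    intro a
    rw [← reindex1 hE hσ i' (fun b => F (σ a) b), mul_sum]
    exact sum_congr rfl (fun b _ => by ring)
  rw [sum_congr rfl (fun a _ => h1 a), reindex1 hE hσ i (fun c => ∑ b, E i' b * F c b)]
  refine sum_congr rfl (fun a _ => ?_)
  rw [mul_sum]
  exact sum_congr rfl (fun b _ => by ring)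

lemma avg1 (i : Fin n) (F : Fin n → ℝ) :
    ∑ σ ∈ Yg E, F (σ i) = ((Yg E).card : ℝ) * ∑ j, E i j * F j := by
  have h1 : ∀ a, E i a * ∑ σ ∈ Yg E, F (σ i) = ∑ σ ∈ Yg E, E i a * F (σ a) := by
    intro a
    by_cases h : E i a = 0
    · simp [h]
    · rw [mul_sum, ← sum_mul_right hE (swap_mem hE h) (fun σ => E i a * F (σ i))]
      refine sum_congr rfl (fun σ _ => ?_)
      rw [Equiv.Perm.mul_apply, Equiv.swap_apply_left]
  calc ∑ σ ∈ Yg E, F (σ i) = ∑ a, E i a * ∑ σ ∈ Yg E, F (σ i) := by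
        rw [← sum_mul, hE.sum, one_mul]
    _ = ∑ σ ∈ Yg E, ∑ a, E i a * F (σ a) := by
        rw [sum_congr rfl (fun a _ => h1 a), sum_comm]
    _ = ∑ σ ∈ Yg E, ∑ a, E i a * F a :=
        sum_congr rfl (fun σ hσ => reindex1 hE hσ i F)
    _ = ((Yg E).card : ℝ) * ∑ j, E i j * F j := by
        rw [sum_const, nsmul_eq_mul]

lemma move {i i' a b : Fin n} {π : Equiv.Perm (Fin n)} (hπ : π ∈ Yg E) (h1 : π i = a)
    (h2 : π i' = b) (F : Fin n → Fin n → ℝ) :
    ∑ σ ∈ Yg E, F (σ i) (σ i') = ∑ σ ∈ Yg E, F (σ a) (σ b) := by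
  rw [← sum_mul_right hE hπ (fun σ => F (σ i) (σ i'))]
  refine sum_congr rfl (fun σ _ => ?_)
  simp only [Equiv.Perm.mul_apply, h1, h2]

lemma avg2 (i i' : Fin n) (F : Fin n → Fin n → ℝ) (hi : E i i' = 0) :
    ∑ σ ∈ Yg E, F (σ i) (σ i') =
      ((Yg E).card : ℝ) * ∑ a, ∑ b, E i a * E i' b * F a b := by
  have h1 : ∀ a b, E i a * E i' b * ∑ σ ∈ Yg E, F (σ i) (σ i')
      = ∑ σ ∈ Yg E, E i a * E i' b * F (σ a) (σ b) := by
    intro a b
    by_cases ha : E i a = 0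
    · simp [ha]
    by_cases hb : E i' b = 0
    · simp [hb]
    have e1 : i ≠ i' := by
      rintro rfl
      exact hE.refl i hi
    have e2 : i ≠ b := by
      rintro rfl
      exact hE.sym hb hi
    have e3 : b ≠ a := by
      rintro rfl
      exact hE.trans ha (hE.sym hb) hi
    have hπ := mul_mem hE (swap_mem hE ha) (swap_mem hE hb)
    rw [move hE hπ (a := a) (b := b) ?_ ?_ F, mul_sum]
    · rw [Equiv.Perm.mul_apply, Equiv.swap_apply_of_ne_of_ne e1 e2, Equiv.swap_apply_left]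
    · rw [Equiv.Perm.mul_apply, Equiv.swap_apply_left, Equiv.swap_apply_of_ne_of_ne e2.symm e3]
  calc ∑ σ ∈ Yg E, F (σ i) (σ i')
      = ∑ a, ∑ b, E i a * E i' b * ∑ σ ∈ Yg E, F (σ i) (σ i') := by
        have h2 : ∀ a, ∑ b, E i a * E i' b * ∑ σ ∈ Yg E, F (σ i) (σ i')
            = E i a * ∑ σ ∈ Yg E, F (σ i) (σ i') := by
          intro a
          rw [← sum_mul, ← mul_sum, hE.sum, mul_one]
        rw [sum_congr rfl (fun a _ => h2 a), ← sum_mul, hE.sum, one_mul]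
    _ = ∑ σ ∈ Yg E, ∑ a, ∑ b, E i a * E i' b * F (σ a) (σ b) := by
        rw [sum_congr rfl (fun a _ => sum_congr rfl (fun b _ => h1 a b))]
        rw [sum_congr rfl (fun a _ => sum_comm)]
        exact sum_comm
    _ = ∑ σ ∈ Yg E, ∑ a, ∑ b, E i a * E i' b * F a b :=
        sum_congr rfl (fun σ hσ => reindex2 hE hσ i i' F)
    _ = _ := by rw [sum_const, nsmul_eq_mul]

lemma erase_sum (i i' : Fin n) (G : Fin n → Fin n → ℝ) :
    ∑ a, ∑ b ∈ univ.erase a, E i a * E i' b * G a b =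
      ∑ a, ∑ b, E i a * E i' b * (if b = a then 0 else G a b) := by
  refine sum_congr rfl (fun a _ => ?_)
  rw [← add_sum_erase univ (fun b => E i a * E i' b * (if b = a then 0 else G a b)) (mem_univ a)]
  rw [if_pos rfl, mul_zero, zero_add]
  refine sum_congr rfl (fun b hb => ?_)
  rw [if_neg (ne_of_mem_erase hb)]

lemma avg3 (i i' : Fin n) (F : Fin n → Fin n → ℝ) (hne : i ≠ i') (hi : E i i' ≠ 0) :
    (1 - E i i) * ∑ σ ∈ Yg E, F (σ i) (σ i') =
      ((Yg E).card : ℝ) * ∑ a, ∑ b ∈ univ.erase a, E i a * E i' b * F a b := by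
  have h1 : ∀ a b, b ≠ a → E i a * E i' b * ∑ σ ∈ Yg E, F (σ i) (σ i')
      = ∑ σ ∈ Yg E, E i a * E i' b * F (σ a) (σ b) := by
    intro a b hab
    by_cases ha : E i a = 0
    · simp [ha]
    by_cases hb : E i' b = 0
    · simp [hb]
    have hc0 : Equiv.swap i a ∈ Yg E := swap_mem hE ha
    have hc1 : Equiv.swap i a i' ≠ a := by
      intro h
      have h2 : Equiv.swap i a i' = Equiv.swap i a i := by rw [h, Equiv.swap_apply_left]
      exact hne ((Equiv.swap i a).injective h2).symm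
    have hc2 : E i' (Equiv.swap i a i') ≠ 0 := (mem_Yg _).1 hc0 i'
    have hπ := mul_mem hE (swap_mem hE (hE.trans (hE.sym hc2) hb)) hc0
    rw [move hE hπ (a := a) (b := b) ?_ ?_ F, mul_sum]
    · rw [Equiv.Perm.mul_apply, Equiv.swap_apply_left i a,
        Equiv.swap_apply_of_ne_of_ne hc1.symm hab.symm]
    · rw [Equiv.Perm.mul_apply, Equiv.swap_apply_left]
  have h2 : ∀ a, ∑ b ∈ univ.erase a, E i a * E i' b = E i a - E i a * E i a := by
    intro a
    rw [← mul_sum, ← mul_one_sub]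
    congr 1
    have h3 := hE.sum i'
    rw [← add_sum_erase univ _ (mem_univ a)] at h3
    rw [hE.row i i' hi a]
    linarith
  have h3 : ∑ a, ∑ b ∈ univ.erase a, E i a * E i' b = 1 - E i i := by
    rw [sum_congr rfl (fun a _ => h2 a), sum_sub_distrib, hE.sum, hE.sq]
  calc (1 - E i i) * ∑ σ ∈ Yg E, F (σ i) (σ i')
      = ∑ a, ∑ b ∈ univ.erase a, E i a * E i' b * ∑ σ ∈ Yg E, F (σ i) (σ i') := by
        rw [← h3, sum_mul]
        exact sum_congr rfl (fun a _ => by rw [sum_mul])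
    _ = ∑ σ ∈ Yg E, ∑ a, ∑ b ∈ univ.erase a, E i a * E i' b * F (σ a) (σ b) := by
        rw [sum_congr rfl (fun a _ => sum_congr rfl
          (fun b hb => h1 a b (ne_of_mem_erase hb)))]
        rw [sum_congr rfl (fun a _ => sum_comm)]
        exact sum_comm
    _ = ∑ σ ∈ Yg E, ∑ a, ∑ b ∈ univ.erase a, E i a * E i' b * F a b := by
        refine sum_congr rfl (fun σ hσ => ?_)
        rw [erase_sum hE i i' (fun a b => F (σ a) (σ b)), erase_sum hE i i' F,
          ← reindex2 hE hσ i i' (fun a b => if b = a then 0 else F a b)]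
        refine sum_congr rfl (fun a _ => sum_congr rfl (fun b _ => ?_))
        simp only [σ.injective.eq_iff]
    _ = _ := by rw [sum_const, nsmul_eq_mul]

end

theorem t_avg : S_idem → S_avg := by
  intro hid n E hDS hEE
  obtain ⟨hs, hp, hr⟩ := hid n E hDS hEE
  have hE : Blk E := ⟨hs, hp, fun i j h => (hr i j h).2.2, hDS.2.1, fun i => by
    have h := congrFun (congrFun hEE i) i
    rw [Matrix.mul_apply] at h
    rw [← h]
    exact sum_congr rfl (fun a _ => by rw [hs a i])⟩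
  exact ⟨fun i F => avg1 hE i F, fun i i' F h => avg2 hE i i' F h,
    fun i i' F hne h => avg3 hE i i' F hne h⟩

end Pool.Agent.Y473.FG
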