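import Pool.Agent.Y727.FG.Stm

set_option autoImplicit false

namespace Pool.Agent.Y473.FG

open Finset Pool.Agent.Y727.FG

section glue

variable {α Q : Type} (κ : α → Q)

lemma fib_apply (τ : ∀ c, Equiv.Perm {i // κ i = c}) {j : α} {c : Q} (h : κ j = c) :
    (τ (κ j) ⟨j, rfl⟩).1 = (τ c ⟨j, h⟩).1 := by
  subst h
  rfl

/-- The permutation glued from permutations of the fibres. -/
def glue (τ : ∀ c, Equiv.Perm {i // κ i = c}) : Equiv.Perm α where
  toFun i := (τ (κ i) ⟨i, rfl⟩).1
  invFun i := ((τ (κ i)).symm ⟨i, rfl⟩).1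
  left_inv i := by
    have h : κ (τ (κ i) ⟨i, rfl⟩).1 = κ i := (τ (κ i) ⟨i, rfl⟩).2
    beta_reduce
    rw [fib_apply κ (fun c => (τ c).symm) h]
    simp
  right_inv i := by
    have h : κ ((τ (κ i)).symm ⟨i, rfl⟩).1 = κ i := ((τ (κ i)).symm ⟨i, rfl⟩).2
    beta_reduce
    rw [fib_apply κ τ h]
    simp

lemma glue_apply (τ : ∀ c, Equiv.Perm {i // κ i = c}) {j : α} {c : Q} (h : κ j = c) :
    glue κ τ j = (τ c ⟨j, h⟩).1 := fib_apply κ τ h

lemma glue_injective : Function.Injective (glue κ) := by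
  intro τ τ' h
  funext c
  ext ⟨i, hi⟩
  have h1 := congrArg (fun σ : Equiv.Perm α => σ i) h
  simp only [glue_apply κ _ hi] at h1
  exact h1

lemma exists_glue (σ : Equiv.Perm α) (h : ∀ i, κ (σ i) = κ i) : ∃ τ, glue κ τ = σ := by
  refine ⟨fun c => σ.subtypePerm (fun x => by rw [h x]), ?_⟩
  ext i
  rw [glue_apply κ _ (rfl : κ i = κ i)]
  rfl

variable [Fintype α] [DecidableEq α] [Fintype Q] [DecidableEq Q]

theorem permanent_eq_prod (X : Matrix α α ℝ) (hX : ∀ i j, κ i ≠ κ j → X i j = 0) :
    X.permanent = ∏ c : Q,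
      (X.submatrix (fun i : {i // κ i = c} => i.1) (fun i : {i // κ i = c} => i.1)).permanent := by
  unfold Matrix.permanent
  rw [prod_univ_sum, Fintype.piFinset_univ]
  symm
  refine sum_of_injOn (glue κ) (glue_injective κ).injOn (fun _ _ => mem_coe.2 (mem_univ _)) ?_ ?_
  · intro σ _ hσ
    by_contra hne
    apply hσ
    have h1 : ∀ i, κ (σ i) = κ i := by
      intro i
      by_contra hi
      exact hne (prod_eq_zero (mem_univ i) (hX _ _ hi))
    obtain ⟨τ, hτ⟩ := exists_glue κ σ h1
    exact ⟨τ, mem_coe.2 (mem_univ _), hτ⟩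
  · intro τ _
    rw [← Fintype.prod_fiberwise κ]
    refine prod_congr rfl (fun c _ => prod_congr rfl (fun i _ => ?_))
    rw [glue_apply κ τ i.2]
    rfl

end glue

section reindex

variable {α β : Type} [Fintype α] [DecidableEq α] [Fintype β] [DecidableEq β]

theorem permanent_submatrix_equiv (e : β ≃ α) (X : Matrix α α ℝ) :
    (X.submatrix e e).permanent = X.permanent := by
  unfold Matrix.permanent
  refine Fintype.sum_equiv e.permCongr _ _ (fun σ => ?_)
  rw [← Equiv.prod_comp e]
  refine prod_congr rfl (fun i _ => ?_)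
  simp [Equiv.permCongr_apply]

/-- Doubly stochastic over any index type. -/
def DSg (A : Matrix α α ℝ) : Prop :=
  (∀ i j, 0 ≤ A i j) ∧ (∀ i, ∑ j, A i j = 1) ∧ ∀ j, ∑ i, A i j = 1

lemma ds_reindex {A : Matrix α α ℝ} (hA : DSg A) {m : ℕ} (e : Fin m ≃ α) :
    DS (A.submatrix e e) := by
  refine ⟨fun i j => hA.1 _ _, fun i => ?_, fun j => ?_⟩
  · simp only [Matrix.submatrix_apply]
    rw [Equiv.sum_comp e (fun j => A (e i) j)]
    exact hA.2.1 _
  · simp only [Matrix.submatrix_apply]
    rw [Equiv.sum_comp e (fun i => A i (e j))]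
    exact hA.2.2 _

lemma vdw_gen (h : S_vdw) {A : Matrix α α ℝ} (hA : DSg A) :
    ((Fintype.card α).factorial : ℝ) / (Fintype.card α : ℝ) ^ (Fintype.card α) ≤ A.permanent := by
  have h1 := h _ _ (ds_reindex hA (Fintype.equivFin α).symm)
  rwa [permanent_submatrix_equiv] at h1

lemma vdwu_gen (h : S_vdwu) {A : Matrix α α ℝ} (hA : DSg A)
    (he : A.permanent =
      ((Fintype.card α).factorial : ℝ) / (Fintype.card α : ℝ) ^ (Fintype.card α)) (i j : α) :
    A i j = 1 / (Fintype.card α : ℝ) := by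
  have h1 := h _ _ (ds_reindex hA (Fintype.equivFin α).symm)
    (by rw [permanent_submatrix_equiv, he]) (Fintype.equivFin α i) (Fintype.equivFin α j)
  simpa using h1

lemma permanent_const (c : ℝ) {A : Matrix α α ℝ} (hA : ∀ i j, A i j = c) :
    A.permanent = ((Fintype.card α).factorial : ℝ) * c ^ (Fintype.card α) := by
  unfold Matrix.permanent
  simp only [hA, prod_const, sum_const, card_univ, Fintype.card_perm, nsmul_eq_mul]

end reindex

theorem t_blk : S_idem → S_vdw → S_vdwu → S_blk := by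
  classical
  intro hid hv hvu n E B hE hEE hB hz
  obtain ⟨hs, hp, hr⟩ := hid n E hE hEE
  -- the classes
  let s : Setoid (Fin n) := {
    r := fun i j => E i j ≠ 0
    iseqv := ⟨fun i => (hp i).ne', fun {i j} h => by rwa [hs j i],
      fun {i j k} h h' => by rwa [(hr i j h).2.2 k]⟩ }
  let κ : Fin n → Quotient s := fun i => Quotient.mk s i
  have hκ : ∀ i j, κ i = κ j ↔ E i j ≠ 0 := fun i j => Quotient.eq
  -- sums over the classes
  have hsum : ∀ (X : Fin n → ℝ) (c : Quotient s), (∀ j, κ j ≠ c → X j = 0) →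
      ∑ j : {j // κ j = c}, X j.1 = ∑ j, X j := by
    intro X c hX
    rw [← Finset.sum_subtype (univ.filter (fun j => κ j = c)) (fun x => by simp) X]
    exact sum_subset (subset_univ _) (fun j _ hj => hX j (fun h => hj (by simp [h])))
  have hds : ∀ X : Matrix (Fin n) (Fin n) ℝ, DS X → (∀ i j, E i j = 0 → X i j = 0) →
      ∀ c : Quotient s, DSg (X.submatrix (fun i : {i // κ i = c} => i.1)
        (fun i : {i // κ i = c} => i.1)) := by
    intro X hX hX0 c
    refine ⟨fun i j => hX.1 _ _, fun i => ?_, fun j => ?_⟩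
    · simp only [Matrix.submatrix_apply]
      rw [hsum (fun j => X i.1 j) c ?_]
      · exact hX.2.1 _
      · intro j hj
        apply hX0
        by_contra h
        exact hj (((hκ _ _).2 h).symm.trans i.2)
    · simp only [Matrix.submatrix_apply]
      rw [hsum (fun i => X i j.1) c ?_]
      · exact hX.2.2 _
      · intro i hi
        apply hX0
        by_contra h
        exact hi (((hκ _ _).2 h).trans j.2)
  have hX0 : ∀ X : Matrix (Fin n) (Fin n) ℝ, (∀ i j, E i j = 0 → X i j = 0) →
      ∀ i j, κ i ≠ κ j → X i j = 0 := by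
    intro X hX i j hij
    apply hX
    by_contra h
    exact hij ((hκ _ _).2 h)
  have hEc : ∀ c : Quotient s, ∀ i j : {i // κ i = c},
      E i.1 j.1 = 1 / (Fintype.card {i // κ i = c} : ℝ) := by
    intro c i j
    have h1 := (hds E hE (fun _ _ h => h) c).2.1 i
    simp only [Matrix.submatrix_apply] at h1
    have h2 : ∀ j : {i // κ i = c}, E i.1 j.1 = E i.1 i.1 := by
      intro j
      exact (hr _ _ ((hκ _ _).1 (i.2.trans j.2.symm))).1
    rw [h2 j]
    rw [sum_congr rfl (fun j _ => h2 j), sum_const, card_univ, nsmul_eq_mul] at h1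
    have h3 : (Fintype.card {i // κ i = c} : ℝ) ≠ 0 := by
      intro h
      rw [h, zero_mul] at h1
      exact zero_ne_one h1
    field_simp
    linarith
  have hperE : ∀ c : Quotient s, (E.submatrix (fun i : {i // κ i = c} => i.1)
      (fun i : {i // κ i = c} => i.1)).permanent =
      ((Fintype.card {i // κ i = c}).factorial : ℝ) /
        (Fintype.card {i // κ i = c} : ℝ) ^ (Fintype.card {i // κ i = c}) := by
    intro c
    rw [permanent_const (1 / (Fintype.card {i // κ i = c} : ℝ))
      (A := E.submatrix (fun i : {i // κ i = c} => i.1) (fun i : {i // κ i = c} => i.1))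
      (fun i j => hEc c i j)]
    rw [one_div, inv_pow, div_eq_mul_inv]
  have hpos : ∀ c : Quotient s, 0 < (E.submatrix (fun i : {i // κ i = c} => i.1)
      (fun i : {i // κ i = c} => i.1)).permanent := by
    intro c
    rw [hperE]
    have h1 : 0 < Fintype.card {i // κ i = c} := by
      obtain ⟨i, hi⟩ := Quotient.exists_rep c
      exact Fintype.card_pos_iff.2 ⟨⟨i, hi⟩⟩
    positivity
  have hle : ∀ c : Quotient s, (E.submatrix (fun i : {i // κ i = c} => i.1)
      (fun i : {i // κ i = c} => i.1)).permanent ≤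
      (B.submatrix (fun i : {i // κ i = c} => i.1) (fun i : {i // κ i = c} => i.1)).permanent := by
    intro c
    rw [hperE]
    exact vdw_gen hv (hds B hB hz c)
  rw [permanent_eq_prod κ E (hX0 E (fun _ _ h => h)), permanent_eq_prod κ B (hX0 B hz)]
  refine ⟨prod_le_prod (fun c _ => (hpos c).le) (fun c _ => hle c), fun heq => ?_⟩
  have heach : ∀ c : Quotient s,
      (B.submatrix (fun i : {i // κ i = c} => i.1) (fun i : {i // κ i = c} => i.1)).permanent
      = (E.submatrix (fun i : {i // κ i = c} => i.1) (fun i : {i // κ i = c} => i.1)).permanent := by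
    intro c
    by_contra hne
    have hlt := lt_of_le_of_ne (hle c) (Ne.symm hne)
    have := prod_lt_prod (s := (univ : Finset (Quotient s))) (fun c _ => hpos c)
      (fun c _ => hle c) ⟨c, mem_univ c, hlt⟩
    exact absurd heq this.ne'
  ext i j
  by_cases hij : E i j = 0
  · rw [hij, hz i j hij]
  · have hc : κ j = κ i := ((hκ i j).2 hij).symm
    have h1 := vdwu_gen hvu (hds B hB hz (κ i)) ((heach (κ i)).trans (hperE (κ i)))
      ⟨i, rfl⟩ ⟨j, hc⟩
    have h2 := hEc (κ i) ⟨i, rfl⟩ ⟨j, hc⟩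
    rw [h2]
    exact h1

end Pool.Agent.Y473.FG
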