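import Pool.Agent.Y727.FG.Stm

set_option autoImplicit false

namespace Pool.Agent.Y473.FG

open Finset Pool.Agent.Y727.FG

lemma tay_aux {ι : Type} (v : ι → ℝ) (ε : ℝ) (hε : ε ≤ 1) (h0 : 0 ≤ ε)
    (hv : ∀ i, |v i| ≤ ε) (s : Finset ι) :
    |∏ i ∈ s, (1 + v i) - (1 + ∑ i ∈ s, v i + 1 / 2 * ((∑ i ∈ s, v i) ^ 2 - ∑ i ∈ s, v i ^ 2))| ≤
      (3 ^ s.card * (s.card + 1)) * ε * ∑ i ∈ s, v i ^ 2 := by
  classical
  induction s using Finset.induction_on with
  | empty => simp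
  | insert a s ha ih =>
    rw [prod_insert ha, sum_insert ha, sum_insert ha, card_insert_of_notMem ha]
    set P := ∏ i ∈ s, (1 + v i)
    set S := ∑ i ∈ s, v i
    set Q := ∑ i ∈ s, v i ^ 2
    have hQ : 0 ≤ Q := sum_nonneg (fun i _ => sq_nonneg _)
    have hSQ : S ^ 2 ≤ s.card * Q := sq_sum_le_card_mul_sum_sq
    have hS0 : 0 ≤ S ^ 2 := sq_nonneg _
    have hk : (0 : ℝ) ≤ (s.card : ℝ) := Nat.cast_nonneg _
    have hE : |S ^ 2 - Q| ≤ (s.card + 1) * Q := by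
      rw [abs_le]
      constructor <;> nlinarith
    have hid : (1 + v a) * P - (1 + (v a + S) + 1 / 2 * ((v a + S) ^ 2 - (v a ^ 2 + Q)))
        = (1 + v a) * (P - (1 + S + 1 / 2 * (S ^ 2 - Q))) + v a * (1 / 2 * (S ^ 2 - Q)) := by ring
    rw [hid]
    have hva := hv a
    have h1 : |1 + v a| ≤ 2 := by
      rw [abs_le] at hva ⊢
      constructor <;> linarith
    have hpow : (1 : ℝ) ≤ 3 ^ s.card := one_le_pow₀ (by norm_num)
    calc |(1 + v a) * (P - (1 + S + 1 / 2 * (S ^ 2 - Q))) + v a * (1 / 2 * (S ^ 2 - Q))|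
        ≤ |(1 + v a) * (P - (1 + S + 1 / 2 * (S ^ 2 - Q)))| + |v a * (1 / 2 * (S ^ 2 - Q))| :=
          abs_add_le _ _
      _ = |1 + v a| * |P - (1 + S + 1 / 2 * (S ^ 2 - Q))| + |v a| * (1 / 2 * |S ^ 2 - Q|) := by
          rw [abs_mul, abs_mul, abs_mul, abs_of_pos (by norm_num : (0 : ℝ) < 1 / 2)]
      _ ≤ 2 * ((3 ^ s.card * (s.card + 1)) * ε * Q) + ε * (1 / 2 * ((s.card + 1) * Q)) := by
          gcongr
      _ ≤ (3 ^ (s.card + 1) * (s.card + 1)) * ε * Q := by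
          have h2 : ε * (1 / 2 * ((s.card + 1) * Q)) ≤ (3 ^ s.card * (s.card + 1)) * ε * Q := by
            have h3 : ε * (1 / 2 * ((s.card + 1) * Q)) = (1 / 2 * (s.card + 1)) * ε * Q := by ring
            rw [h3]
            have h4 : (1 : ℝ) / 2 * (s.card + 1) ≤ 3 ^ s.card * (s.card + 1) := by
              nlinarith
            exact mul_le_mul_of_nonneg_right (mul_le_mul_of_nonneg_right h4 h0) hQ
          have h5 : (3 ^ (s.card + 1) * ((s.card : ℝ) + 1)) * ε * Q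
              = 3 * ((3 ^ s.card * (s.card + 1)) * ε * Q) := by rw [pow_succ]; ring
          rw [h5]
          linarith
      _ ≤ (3 ^ (s.card + 1) * (((s.card + 1 : ℕ) : ℝ) + 1)) * ε * (v a ^ 2 + Q) := by
          have h6 : ((s.card : ℝ) + 1) ≤ ((s.card + 1 : ℕ) : ℝ) + 1 := by push_cast; linarith
          have h7 : Q ≤ v a ^ 2 + Q := by nlinarith [sq_nonneg (v a)]
          gcongr

theorem t_tay : S_tay := by
  intro n
  refine ⟨3 ^ n * (n + 1), by positivity, fun v ε hε hv => ?_⟩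
  have h2 : ∑ i, ∑ j ∈ univ.erase i, v i * v j = (∑ i, v i) ^ 2 - ∑ i, v i ^ 2 := by
    have h3 : ∀ i, ∑ j ∈ univ.erase i, v i * v j = v i * (∑ j, v j) - v i ^ 2 := by
      intro i
      rw [← mul_sum, ← add_sum_erase univ v (mem_univ i)]
      ring
    rw [sum_congr rfl (fun i _ => h3 i), sum_sub_distrib, ← sum_mul, sq]
  rw [h2]
  rcases Nat.eq_zero_or_pos n with rfl | hn
  · simp
  have h0 : 0 ≤ ε := (abs_nonneg _).trans (hv ⟨0, hn⟩)
  have h := tay_aux v ε hε h0 hv univ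
  rw [card_univ, Fintype.card_fin] at h
  exact h

end Pool.Agent.Y473.FG
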